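import Pool.Agent.L7h71.GC.Stm

set_option autoImplicit false

/-!
# Project GC, part YCC: the closure condition
-/

namespace Pool.Agent.L7h76.GC

open Set Function FirstOrder FirstOrder.Language
open Pool.Agent.L7h71.GC
open Pool.Agent.L7h71.UN (IsEU)
open Pool.Agent.L7h71.GB (pt FamG Gd Fine GYo Emb)

variable {L : FirstOrder.Language.{0, 0}}

theorem tr_subst (S : L.Structure ℕ) (v : ℕ → ℕ) (t : L.Term ℕ) (f : ℕ → L.Term ℕ) :
    tr S v (t.subst f) = tr S (fun i => tr S v (f i)) t := by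
  unfold tr
  exact @Term.realize_subst L ℕ S ℕ ℕ t f v

theorem tr_relabel (S : L.Structure ℕ) (v : ℕ → ℕ) (t : L.Term ℕ) (g : ℕ → ℕ) :
    tr S v (t.relabel g) = tr S (v ∘ g) t := by
  unfold tr
  exact @Term.realize_relabel L ℕ S ℕ ℕ t g v

theorem tr_one (S : L.Structure ℕ) (v : ℕ → ℕ) (t : L.Term ℕ) (i : ℕ) :
    tr S v (t.relabel fun _ => i) = tr S (fun _ => v i) t := tr_relabel S v t _

theorem fr_equal (S : L.Structure ℕ) (v : ℕ → ℕ) (t t' : L.Term ℕ) :
    fr S v (t.equal t') ↔ tr S v t = tr S v t' := by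
  unfold fr tr
  exact @Formula.realize_equal L ℕ S ℕ t t' v

theorem fr_relabel (S : L.Structure ℕ) (v : ℕ → ℕ) (φ : L.Formula ℕ) (g : ℕ → ℕ) :
    fr S v (φ.relabel g) ↔ fr S (v ∘ g) φ := by
  unfold fr
  exact @Formula.realize_relabel L ℕ S ℕ ℕ φ g v

theorem fr_not (S : L.Structure ℕ) (v : ℕ → ℕ) (φ : L.Formula ℕ) :
    fr S v φ.not ↔ ¬ fr S v φ := by
  unfold fr
  exact @Formula.realize_not L ℕ S ℕ φ v

theorem qf_equal (t t' : L.Term ℕ) : (t.equal t').IsQF :=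
  (BoundedFormula.IsAtomic.equal _ _).isQF

/-- the value of the term depends only on the variables with numbers at most `m` -/
def DepT (m : ℕ) (t : L.Term ℕ) : Prop :=
  ∀ (S : L.Structure ℕ) (v v' : ℕ → ℕ), (∀ i ≤ m, v i = v' i) → tr S v t = tr S v' t

/-- the truth value of the formula depends only on the variables with numbers at most `m` -/
def Dep (m : ℕ) (φ : L.Formula ℕ) : Prop :=
  ∀ (S : L.Structure ℕ) (v v' : ℕ → ℕ), (∀ i ≤ m, v i = v' i) → (fr S v φ ↔ fr S v' φ)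

theorem DepT.mono {m m' : ℕ} {t : L.Term ℕ} (h : DepT m t) (hm : m ≤ m') : DepT m' t :=
  fun S v v' hv => h S v v' fun i hi => hv i (hi.trans hm)

theorem depT_exists (t : L.Term ℕ) : ∃ m, DepT m t := by
  induction t with
  | var i => exact ⟨i, fun S v v' h => h i le_rfl⟩
  | func f ts ih =>
    choose m hm using ih
    refine ⟨Finset.univ.sup m, fun S v v' h => ?_⟩
    unfold tr
    show @Structure.funMap L ℕ S _ f _ = @Structure.funMap L ℕ S _ f _
    congr 1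
    funext k
    exact hm k S v v' fun i hi => h i (hi.trans (Finset.le_sup (f := m) (Finset.mem_univ k)))

theorem depT_one {m i : ℕ} (t : L.Term ℕ) (hi : i ≤ m) : DepT m (t.relabel fun _ => i) := by
  intro S v v' h
  rw [tr_one, tr_one, h i hi]

theorem depT_subst {m : ℕ} (t : L.Term ℕ) (f : ℕ → L.Term ℕ) (h : ∀ i, DepT m (f i)) :
    DepT m (t.subst f) := by
  intro S v v' hv
  rw [tr_subst, tr_subst]
  congr 1
  funext i
  exact h i S v v' hv

theorem depT_var {m i : ℕ} (hi : i ≤ m) : DepT m (Term.var i : L.Term ℕ) :=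
  fun _ _ _ h => h i hi

theorem dep_equal {m : ℕ} {t t' : L.Term ℕ} (h : DepT m t) (h' : DepT m t') :
    Dep m (t.equal t') := by
  intro S v v' hv
  rw [fr_equal, fr_equal, h S v v' hv, h' S v v' hv]

theorem G1.trans' {S : L.Structure ℕ} {y p w : ℕ} (h : G1 S y p) (h' : G1 S p w) : G1 S y w := by
  obtain ⟨t, ht⟩ := h
  obtain ⟨t', ht'⟩ := h'
  refine ⟨t'.subst fun _ => t, ?_⟩
  rw [tr_subst, ht, ht']

/-- the transfer of equations -/
def EqT (S S₁ : L.Structure ℕ) (z : ℕ → ℕ → ℕ) (x : ℕ → ℕ) : Prop :=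
  ∀ (s s' : L.Term ℕ) (m : ℕ), DepT m s → DepT m s' → ∀ t ≥ m,
    (tr S (z t) s = tr S (z t) s' ↔ tr S₁ x s = tr S₁ x s')

section

variable {S S₁ : L.Structure ℕ} {z : ℕ → ℕ → ℕ} {x : ℕ → ℕ}

theorem top1 (h : EqT S S₁ z x) (hz : ∀ t i, TopP S (z t i)) (hgen : ∀ p, Gen S₁ x p) (i : ℕ) :
    TopP S₁ (x i) := by
  intro w hw
  obtain ⟨s, hs⟩ := hgen w
  obtain ⟨r, hr⟩ := hw
  obtain ⟨m₀, hm₀⟩ := depT_exists s
  have hm : DepT (max m₀ i) s := hm₀.mono (le_max_left _ _)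
  have hi : i ≤ max m₀ i := le_max_right _ _
  set m := max m₀ i
  have h1 := (h (r.subst fun _ => s) (Term.var i) m (depT_subst _ _ fun _ => hm)
    (depT_var hi) m le_rfl).2 (by
      rw [tr_subst, hs]
      exact hr)
  rw [tr_subst] at h1
  have h2 : G1 S (tr S (z m) s) (z m i) := ⟨r, h1⟩
  obtain ⟨q, hq⟩ := hz m i _ h2
  have h3 := (h (q.relabel fun _ => i) s m (depT_one q hi) hm m le_rfl).1 (by
    rw [tr_one]
    exact hq)
  rw [tr_one, hs] at h3
  exact ⟨q, h3⟩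

theorem cover (h : EqT S S₁ z x) (hu : ∀ (v : ℕ → ℕ) p, Gen S v p → ∃ i, G1 S (v i) p)
    {m : ℕ} {s : L.Term ℕ} (hs : DepT m s) : ∃ i ≤ m, G1 S₁ (x i) (tr S₁ x s) := by
  let v : ℕ → ℕ := fun j => if j ≤ m then z m j else z m 0
  have h1 : tr S v s = tr S (z m) s := hs S v (z m) fun i hi => by simp only [v, if_pos hi]
  obtain ⟨i', hi'⟩ := hu v _ ⟨s, h1⟩
  obtain ⟨i, hi, hvi⟩ : ∃ i ≤ m, v i' = z m i := by
    by_cases hc : i' ≤ m
    · exact ⟨i', hc, by simp only [v, if_pos hc]⟩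
    · exact ⟨0, Nat.zero_le _, by simp only [v, if_neg hc]⟩
  rw [hvi] at hi'
  obtain ⟨q, hq⟩ := hi'
  have h3 := (h (q.relabel fun _ => i) s m (depT_one q hi) hs m le_rfl).1 (by
    rw [tr_one]
    exact hq)
  rw [tr_one] at h3
  exact ⟨i, hi, q, h3⟩

theorem notFG (h : EqT S S₁ z x) (hD : Dis S) (hz : ∀ t i, TopP S (z t i))
    (hgen : ∀ p, Gen S₁ x p) (hzi : ∀ t i j, i ≤ t → j ≤ t → z t i = z t j → i = j) : ¬ FGs S₁ := by
  rintro ⟨l, hl, hfg⟩
  obtain ⟨n, hn⟩ := hD.bdd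
  -- each point is in the substructure generated by one of the `x i`, `i ≤ m`
  have h1 : ∀ a : ℕ, ∃ (i : ℕ) (q : L.Term ℕ), tr S₁ (fun _ => x i) q = a := by
    intro a
    obtain ⟨s, hs⟩ := hgen a
    obtain ⟨m, hm⟩ := depT_exists s
    obtain ⟨i, -, q, hq⟩ := cover h hD.union hm
    exact ⟨i, q, hq.trans hs⟩
  choose I Q hIQ using h1
  have h2 : ∃ m, ∀ s, I (pt l s) ≤ m := by
    refine ⟨l.toFinset.sup I, fun s => Finset.le_sup (f := I) ?_⟩
    rw [List.mem_toFinset]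
    unfold pt
    rcases l with _ | ⟨a, l⟩
    · exact absurd rfl hl
    · rw [List.getD_eq_getElem?_getD]
      rcases hs : (a :: l)[s]? with _ | b
      · simp
      · simp only [Option.getD_some]
        exact List.mem_of_getElem? hs
  obtain ⟨m, hm⟩ := h2
  have h3 : ∀ p, ∃ i ≤ m, G1 S₁ (x i) p := by
    intro p
    obtain ⟨s, hs⟩ := hfg p
    have h4 : DepT m (s.subst fun k => (Q (pt l k)).relabel fun _ => I (pt l k)) :=
      depT_subst _ _ fun k => depT_one _ (hm k)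
    obtain ⟨i, hi, h5⟩ := cover h hD.union h4
    refine ⟨i, hi, ?_⟩
    rw [tr_subst] at h5
    have h6 : (fun k => tr S₁ x ((Q (pt l k)).relabel fun _ => I (pt l k))) = pt l := by
      funext k
      rw [tr_one, hIQ]
    rw [h6, hs] at h5
    exact h5
  choose J hJ hJG using fun j => h3 (x j)
  -- one `i` for infinitely many `j`
  obtain ⟨i, hi⟩ := Finite.exists_infinite_fiber (fun j : ℕ => (⟨J j, Nat.lt_succ_of_le (hJ j)⟩ : Fin (m + 1)))
  have hinf : ((fun j : ℕ => (⟨J j, Nat.lt_succ_of_le (hJ j)⟩ : Fin (m + 1))) ⁻¹' {i}).Infinite :=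
    Set.infinite_coe_iff.1 hi
  obtain ⟨K, hK, hKc⟩ := hinf.exists_subset_card_eq (n + 1)
  have hK' : ∀ j ∈ K, J j = i := by
    intro j hj
    have := hK (Finset.mem_coe.2 hj)
    exact congrArg Fin.val (Set.mem_singleton_iff.1 this)
  let t : ℕ := max (i : ℕ) (K.sup id)
  have hit : (i : ℕ) ≤ t := le_max_left _ _
  have hjt : ∀ j ∈ K, j ≤ t := fun j hj => (Finset.le_sup (f := id) hj).trans (le_max_right _ _)
  have h7 : ∀ j ∈ K, G1 S (z t i) (z t j) ∧ G1 S (z t j) (z t i) := by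
    intro j hj
    have h8 := hJG j
    rw [hK' j hj] at h8
    obtain ⟨q, hq⟩ := h8
    have h10 : G1 S (z t i) (z t j) := by
      refine ⟨q, ?_⟩
      have := (h (q.relabel fun _ => (i : ℕ)) (Term.var j) t (depT_one q hit)
        (depT_var (hjt j hj)) t le_rfl).2 (by rw [tr_one]; exact hq)
      rw [tr_one] at this
      exact this
    exact ⟨h10, hz t j _ h10⟩
  obtain ⟨y, hy1, hy2, hy3⟩ := hn (z t i)
  have hy4 : G1 S (z t i) y := hz t i _ hy1
  have h11 : (K.image (z t) : Set ℕ) ⊆ {w | G1 S y w ∧ G1 S w y} := by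
    intro w hw
    obtain ⟨j, hj, rfl⟩ := Finset.mem_image.1 (Finset.mem_coe.1 hw)
    exact ⟨G1.trans' hy1 (h7 j hj).1, G1.trans' (h7 j hj).2 hy4⟩
  have h12 := Set.encard_le_encard h11
  rw [Set.encard_coe_eq_coe_finsetCard, Finset.card_image_of_injOn (fun a ha b hb hab =>
    hzi t a b (hjt a ha) (hjt b hb) hab), hKc] at h12
  have h13 := h12.trans hy3
  have h14 : n + 1 ≤ n := by exact_mod_cast h13
  omega

end

theorem s_YCC (hU : S_ULT) (hG : S_GDC) : S_YCC := by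
  classical
  intro L hL E hE T hT hfin S ρ hS hD hρ
  obtain ⟨F₀, hF₀⟩ := hU L hL T hT hfin S hS
  obtain ⟨n, hn⟩ := hD.bdd
  -- the points of `F₀` are values of terms at `ρ i`
  have h1 : ∀ p, ∃ (i : ℕ) (s : L.Term ℕ), tr S (fun _ => ρ i) s = p := by
    intro p
    obtain ⟨y, ⟨s, hs⟩, hy, -⟩ := hn p
    obtain ⟨i, rfl⟩ := (hρ.2 y).1 hy
    exact ⟨i, s, hs⟩
  choose I Q hIQ using h1
  refine ⟨Finset.range (F₀.sup I + 1), fun N₁ hN => ?_⟩
  choose X' hX hFX hgd e he1 he2 using fun t : ℕ => hN (Finset.range (t + 1))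
  let z : ℕ → ℕ → ℕ := fun t i => ρ (e t i)
  have hmem : ∀ t i, i ≤ t → i ∈ X' t := fun t i hi =>
    hX t (Finset.mem_range.2 (Nat.lt_succ_of_le hi))
  have hz : ∀ t i, TopP S (z t i) := fun t i => (hρ.2 _).2 ⟨_, rfl⟩
  have hzi : ∀ t i j, i ≤ t → j ≤ t → z t i = z t j → i = j := fun t i j hi hj h =>
    (he2 t).1 (Finset.mem_coe.2 (hmem t i hi)) (Finset.mem_coe.2 (hmem t j hj)) (hρ.1 h)
  obtain ⟨S₁, x, hS₁, hgen, hlim⟩ := hF₀ z (fun p hp => by
    refine ⟨(Q p).relabel fun _ => I p, fun t => ?_⟩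
    rw [tr_one]
    have h2 : e t (I p) = I p := he1 t (I p) (Finset.mem_range.2
      (Nat.lt_succ_of_le (Finset.le_sup (f := I) hp)))
    have h3 : z t (I p) = ρ (I p) := by simp only [z, h2]
    rw [h3, hIQ]) (fun i j hij => ⟨max i j, fun t ht h => hij (hzi t i j
      ((le_max_left _ _).trans ht) ((le_max_right _ _).trans ht) h)⟩)
  have key : ∀ (t m : ℕ) (y : Fin (m + 1) → ℕ), (∀ j, y j ≤ t) → ∀ k,
      N₁ m y k = decide (fr S (fun s => z t (tu y s)) (E k)) := by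
    intro t m y hy k
    have h2 := (he2 t).2 m y fun j => Finset.mem_coe.2 (hmem t _ (hy j))
    rw [← h2]
    rfl
  -- transfer
  have transfer : ∀ (φ : L.Formula ℕ), φ.IsQF → ∀ m, Dep m φ → ∀ t ≥ m,
      (fr S (z t) φ ↔ fr S₁ x φ) := by
    intro φ hφ m hm
    have h2 : ∀ t ≥ m, (fr S (z t) φ ↔ N₁ m (fun j => (j : ℕ)) (ix E φ) = true) := by
      intro t ht
      rw [key t m (fun j => (j : ℕ)) (fun j => (Nat.le_of_lt_succ j.2).trans ht), decide_eq_true_iff,
        ix_spec hE hφ]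
      refine hm S _ _ fun i hi => ?_
      simp [tu, min_eq_left hi]
    intro t ht
    rw [h2 t ht]
    constructor
    · intro h3
      exact hlim φ hφ ⟨m, fun t' ht' => (h2 t' ht').2 h3⟩
    · intro h3
      by_contra h4
      have h5 := hlim φ.not hφ.not ⟨m, fun t' ht' => (fr_not _ _ _).2 fun h6 => h4 ((h2 t' ht').1 h6)⟩
      exact (fr_not _ _ _).1 h5 h3
  have hEq : EqT S S₁ z x := by
    intro s s' m hs hs' t ht
    have h2 := transfer (s.equal s') (qf_equal s s') m (dep_equal hs hs') t ht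
    rwa [fr_equal, fr_equal] at h2
  -- the code
  have hcod : cod E S₁ x = N₁ := by
    funext m y k
    let t : ℕ := Finset.univ.sup y
    have hy : ∀ j, y j ≤ t := fun j => Finset.le_sup (f := y) (Finset.mem_univ j)
    rw [key t m y hy k]
    have h2 := transfer ((E k).relabel (tu y)) (by
      have := (hE.1 k).relabel (n := 0) (fun i : ℕ => (Sum.inl (tu y i) : ℕ ⊕ Fin 0))
      exact this) t (fun S v v' hv => by
        rw [fr_relabel, fr_relabel]
        have h3 : v ∘ tu y = v' ∘ tu y := funext fun s => hv _ (hy _)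
        rw [h3]) t le_rfl
    rw [fr_relabel, fr_relabel] at h2
    show decide (fr S₁ (x ∘ tu y) (E k)) = decide (fr S (z t ∘ tu y) (E k))
    exact decide_eq_decide.2 h2.symm
  have hinj : Injective x := by
    intro i j hij
    have h2 := (hEq (Term.var i) (Term.var j) (max i j) (depT_var (le_max_left _ _))
      (depT_var (le_max_right _ _)) (max i j) le_rfl).2 hij
    exact hzi _ i j (le_max_left _ _) (le_max_right _ _) h2
  refine ⟨S₁, x, hS₁, notFG hEq hD hz hgen hzi, ⟨hinj, fun w => ⟨fun hw => ?_, ?_⟩⟩, hcod⟩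
  · obtain ⟨s, hs⟩ := hgen w
    obtain ⟨m, hm⟩ := depT_exists s
    obtain ⟨i, hi, h2⟩ := cover hEq hD.union hm
    rw [hs] at h2
    have h3 := hgd m
    rw [← hcod] at h3
    obtain ⟨j, -, hj⟩ := ((hG L hL E hE).2 S₁ x (X' m)).1 h3 i (hmem m i hi) w h2 (hw _ h2)
    exact ⟨j, hj⟩
  · rintro ⟨i, rfl⟩
    exact top1 hEq hz hgen i

end Pool.Agent.L7h76.GC
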